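import Pool.Agent.helper95.RF.SpecC

set_option autoImplicit false

/-!
# Row rf:CTH of MP_16912e_nt (Thue's lemma in the ring generated by the golden ratio)
-/

namespace Pool.Agent.RF

open Finset NumberField Pool.Agent.helper3.FT

theorem CTH_pigeon (q : ℕ) (hq : q.Prime) (r : ℤ) : ∃ a b : ℤ, (a ≠ 0 ∨ b ≠ 0) ∧ a ^ 2 ≤ q ∧
    b ^ 2 ≤ q ∧ (q : ℤ) ∣ a + r * b := by
  haveI : Fact q.Prime := ⟨hq⟩
  set s := Nat.sqrt q with hs
  have hcard : (Finset.univ : Finset (ZMod q)).card < (range (s + 1) ×ˢ range (s + 1)).card := by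
    rw [Finset.card_univ, ZMod.card, card_product, card_range]
    exact Nat.lt_succ_sqrt q
  obtain ⟨x, hx, y, hy, hne, heq⟩ := Finset.exists_ne_map_eq_of_card_lt_of_maps_to hcard
    (f := fun p : ℕ × ℕ => (p.1 : ZMod q) + (r : ZMod q) * p.2) (fun _ _ => mem_coe.2 (mem_univ _))
  rw [mem_product, mem_range, mem_range] at hx hy
  have hsq : (s : ℤ) ^ 2 ≤ q := by
    have := Nat.sqrt_le' q
    exact_mod_cast this
  have hb : ∀ u v : ℕ, u < s + 1 → v < s + 1 → ((u : ℤ) - v) ^ 2 ≤ q := by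
    intro u v hu hv
    refine le_trans ?_ hsq
    have h1 : (u : ℤ) ≤ s := by exact_mod_cast Nat.lt_succ_iff.1 hu
    have h2 : (v : ℤ) ≤ s := by exact_mod_cast Nat.lt_succ_iff.1 hv
    have h3 : (0 : ℤ) ≤ u := Int.natCast_nonneg u
    have h4 : (0 : ℤ) ≤ v := Int.natCast_nonneg v
    exact sq_le_sq' (by linarith) (by linarith)
  refine ⟨(x.1 : ℤ) - y.1, (x.2 : ℤ) - y.2, ?_, hb _ _ hx.1 hy.1, hb _ _ hx.2 hy.2, ?_⟩
  · by_contra h
    push Not at h
    apply hne
    refine Prod.ext ?_ ?_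
    · have := h.1
      omega
    · have := h.2
      omega
  · rw [← ZMod.intCast_zmod_eq_zero_iff_dvd]
    push_cast
    have h : (x.1 : ZMod q) + (r : ZMod q) * x.2 = (y.1 : ZMod q) + (r : ZMod q) * y.2 := heq
    linear_combination h

theorem CTH_ne (a b : ℤ) (h : a ≠ 0 ∨ b ≠ 0) : a * a + a * b - b * b ≠ 0 := by
  intro h0
  have hb : b ≠ 0 := by
    intro hb
    rw [hb] at h0
    have : a = 0 := by
      have h1 : a * a = 0 := by linarith
      exact mul_self_eq_zero.1 h1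
    rcases h with h | h
    · exact h this
    · exact h hb
  have hirr : Irrational √((5 : ℕ) : ℝ) := Nat.Prime.irrational_sqrt (by norm_num)
  apply hirr
  refine ⟨|2 * (a : ℚ) + b| / |(b : ℚ)|, ?_⟩
  symm
  rw [Real.sqrt_eq_iff_mul_self_eq (by positivity) (by positivity)]
  have hbR : (b : ℝ) ≠ 0 := by exact_mod_cast hb
  have h1 : ((2 * (a : ℝ) + b)) ^ 2 = 5 * (b : ℝ) ^ 2 := by
    have h2 : ((2 * a + b) ^ 2 : ℤ) = 5 * b ^ 2 := by linear_combination 4 * h0
    exact_mod_cast h2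
  push_cast
  rw [div_mul_div_comm, ← pow_two, ← pow_two, sq_abs, sq_abs, h1]
  field_simp

theorem CTH_one (q : ℕ) (r : ℤ) (hq : q.Prime) (hr : (q : ℤ) ∣ r ^ 2 - r - 1) :
    ∃ g : OO, g.norm.natAbs = q ∧ g.re ^ 2 ≤ q ∧ g.im ^ 2 ≤ q ∧
      ∀ M : OO, g ∣ M ↔ (q : ℤ) ∣ M.re + r * M.im := by
  obtain ⟨a, b, hab, ha, hb, k1, hk1⟩ := CTH_pigeon q hq r
  obtain ⟨k2, hk2⟩ := hr
  have hqp : (0 : ℤ) < q := by exact_mod_cast hq.pos
  have hN0 := CTH_ne a b hab
  obtain ⟨c, hc⟩ : (q : ℤ) ∣ a * a + a * b - b * b :=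
    ⟨k1 * (a + (1 - r) * b) + k2 * b ^ 2, by linear_combination (a + (1 - r) * b) * hk1 + b ^ 2 * hk2⟩
  have hc0 : c ≠ 0 := by
    rintro rfl
    apply hN0
    rw [hc, mul_zero]
  have hc1 : c < 2 := by
    by_contra h
    push Not at h
    nlinarith [sq_nonneg (a - 2 * b)]
  have hc2 : -2 < c := by
    by_contra h
    push Not at h
    nlinarith [sq_nonneg (2 * a + b)]
  have hcc : c * c = 1 := by
    have : c = 1 ∨ c = -1 := by omega
    rcases this with h | h <;> rw [h] <;> norm_num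
  refine ⟨⟨a, b⟩, ?_, ha, hb, fun M => ?_⟩
  · have h1 : (⟨a, b⟩ : OO).norm = q * c := by
      rw [QuadraticAlgebra.norm_def, ← hc]
      ring
    rw [h1, Int.natAbs_mul]
    have : c.natAbs = 1 := by
      have : c = 1 ∨ c = -1 := by omega
      rcases this with h | h <;> rw [h] <;> rfl
    rw [this, mul_one]
    exact Int.natAbs_natCast q
  · constructor
    · rintro ⟨h, rfl⟩
      rw [QuadraticAlgebra.re_mul, QuadraticAlgebra.im_mul]
      refine ⟨k1 * h.re + (r * k1 - b * k2) * h.im, ?_⟩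
      linear_combination (h.re + r * h.im) * hk1 - b * h.im * hk2
    · rintro ⟨k3, hk3⟩
      set m := M.re with hm
      set n := M.im with hn
      have e1 : (q : ℤ) * (k1 * m + (b - r * b) * k3 + b * n * k2) = (a + b) * m - b * n := by
        linear_combination (-m) * hk1 - (b - r * b) * hk3 - b * n * hk2
      have e2 : (q : ℤ) * (k1 * n - b * k3) = a * n - b * m := by
        linear_combination (-n) * hk1 + b * hk3
      refine ⟨⟨c * (k1 * m + (b - r * b) * k3 + b * n * k2), c * (k1 * n - b * k3)⟩, ?_⟩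
      refine QuadraticAlgebra.ext ?_ ?_
      · rw [QuadraticAlgebra.re_mul]
        refine mul_left_cancel₀ hqp.ne' ?_
        rw [← hm]
        linear_combination (-(a * c)) * e1 - (b * c) * e2 - c * m * hc - q * m * hcc
      · rw [QuadraticAlgebra.im_mul]
        refine mul_left_cancel₀ hqp.ne' ?_
        rw [← hn]
        linear_combination (-((a + b) * c)) * e2 - (b * c) * e1 - c * n * hc - q * n * hcc

theorem CTH_recip (q : ℕ) (hq : q.Prime) (h2 : q ≠ 2) :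
    IsSquare ((5 : ℕ) : ZMod q) ↔ IsSquare (q : ZMod 5) := by
  haveI : Fact q.Prime := ⟨hq⟩
  haveI : Fact (Nat.Prime 5) := ⟨by norm_num⟩
  exact (ZMod.exists_sq_eq_prime_iff_of_mod_four_eq_one (p := 5) (q := q) (by norm_num) h2).symm

theorem CTH_two (q : ℕ) (hq : q.Prime) (h : q % 5 = 1 ∨ q % 5 = 4) :
    ∃ r : ℤ, (q : ℤ) ∣ r ^ 2 - r - 1 := by
  haveI : Fact q.Prime := ⟨hq⟩
  have h2 : q ≠ 2 := by
    rintro rfl
    omega
  have hs : IsSquare (q : ZMod 5) := by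
    rw [← ZMod.natCast_mod q 5]
    rcases h with h | h <;> rw [h] <;> decide
  obtain ⟨x, hx⟩ := (CTH_recip q hq h2).2 hs
  have h20 : (2 : ZMod q) ≠ 0 := by
    intro h0
    have h1 : ((2 : ℕ) : ZMod q) = 0 := by exact_mod_cast h0
    rw [ZMod.natCast_eq_zero_iff] at h1
    exact h2 (((Nat.prime_dvd_prime_iff_eq hq Nat.prime_two).1 h1))
  have hx' : x * x = 5 := by
    rw [← hx]
    norm_num
  refine ⟨(((1 + x) / 2 : ZMod q).val : ℤ), ?_⟩
  rw [← ZMod.intCast_zmod_eq_zero_iff_dvd]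
  push_cast
  rw [ZMod.natCast_zmod_val]
  field_simp
  linear_combination hx'

theorem CTH_three (q : ℕ) (hq : q.Prime) (h2 : q ≠ 2) (h : q % 5 = 2 ∨ q % 5 = 3) (M : OO)
    (hM : (q : ℤ) ∣ M.norm) : (q : OO) ∣ M := by
  haveI : Fact q.Prime := ⟨hq⟩
  have hs : ¬ IsSquare (q : ZMod 5) := by
    rw [← ZMod.natCast_mod q 5]
    rcases h with h | h <;> rw [h] <;> decide
  have hs' : ¬ IsSquare ((5 : ℕ) : ZMod q) := fun h5 => hs ((CTH_recip q hq h2).1 h5)
  have hqZ : Prime (q : ℤ) := Nat.prime_iff_prime_int.1 hq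
  have hn : (q : ℤ) ∣ M.im := by
    by_contra hn
    apply hs'
    have hn' : (M.im : ZMod q) ≠ 0 := by
      rw [Ne, ZMod.intCast_zmod_eq_zero_iff_dvd]
      exact hn
    have h1 : ((M.norm : ℤ) : ZMod q) = 0 := (ZMod.intCast_zmod_eq_zero_iff_dvd _ _).2 hM
    rw [QuadraticAlgebra.norm_def] at h1
    push_cast at h1
    refine ⟨(2 * (M.re : ZMod q) + M.im) / M.im, ?_⟩
    rw [div_mul_div_comm, eq_div_iff (mul_ne_zero hn' hn')]
    push_cast
    linear_combination (-4) * h1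
  have hm : (q : ℤ) ∣ M.re := by
    rw [QuadraticAlgebra.norm_def] at hM
    have h3 : (q : ℤ) ∣ M.re * M.re := by
      have h4 : M.re * M.re = (M.re * M.re + 1 * M.re * M.im - 1 * M.im * M.im) +
          M.im * (M.im - M.re) := by ring
      rw [h4]
      exact dvd_add hM (Dvd.dvd.mul_right hn _)
    rcases hqZ.dvd_or_dvd h3 with h5 | h5 <;> exact h5
  obtain ⟨u, hu⟩ := hm
  obtain ⟨v, hv⟩ := hn
  refine ⟨⟨u, v⟩, ?_⟩
  refine QuadraticAlgebra.ext ?_ ?_
  · rw [QuadraticAlgebra.re_mul, hu, QuadraticAlgebra.re_natCast, QuadraticAlgebra.im_natCast]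
    simp
  · rw [QuadraticAlgebra.im_mul, hv, QuadraticAlgebra.re_natCast, QuadraticAlgebra.im_natCast]
    simp

theorem CTH : CTH_stmt :=
  ⟨fun q r hq _ hr => CTH_one q r hq hr, CTH_two, CTH_three⟩

end Pool.Agent.RF
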