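import Pool.Agent.helper13.RF.SpecT

set_option autoImplicit false

/-!
# Row rf:TTY of MP_16912e_nt (points and types)
-/

namespace Pool.Agent.RF

open NumberField

theorem TTY_mem (F : Type) [Field F] [NumberField F] (g : ℕ) (hg : 0 < g) (P : Ideal (𝓞 F)) :
    P ∈ QP F g ↔ P.IsPrime ∧ (g : 𝓞 F) ∈ P := by
  classical
  have hn0 : Ideal.span {(g : 𝓞 F)} ≠ ⊥ := by
    rw [Ne, Ideal.span_singleton_eq_bot]
    exact Nat.cast_ne_zero.2 hg.ne'
  unfold QP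
  rw [Multiset.mem_toFinset, Ideal.mem_normalizedFactors_iff hn0, Ideal.span_singleton_le_iff_mem]

/-- the type at one prime -/
noncomputable def TTY_t {D : ℤ} {F : Type} [Field F] [NumberField F] (C : Ctx D F) (f g : ℕ) (p : Pt)
    (P : Ideal (𝓞 F)) : ℕ × ℕ :=
  ((AV C f P p % 5).toNat, (min (AV C f P p) (10 * (vv P (g : 𝓞 F) : ℤ)) + 4 * (vv P (g : 𝓞 F) : ℤ)).toNat)

theorem TTY (h1 : TLA_stmt) : TTY_stmt := by
  classical
  intro D₀ F _ _ C f g hg B hB S hS hT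
  have hlo : ∀ p ∈ S, ∀ P ∈ QP F g, -(4 * (vv P (g : 𝓞 F) : ℤ)) ≤ AV C f P p := by
    intro p hp P hP
    obtain ⟨q1, q2, q3⟩ := hS p hp
    obtain ⟨hP1, hP2⟩ := (TTY_mem F g hg P).1 hP
    have hP0 : P ≠ ⊥ := by
      rintro rfl
      rw [Ideal.mem_bot] at hP2
      exact hg.ne' (by exact_mod_cast hP2)
    have h := (h1 D₀ F C p f q1 q2 P hP1 hP0 (by rw [q3]; exact hP2)).2.1
    rwa [q3] at h
  obtain ⟨ty, hty⟩ : ∃ ty : Pt → (↥(QP F g) → ℕ × ℕ), ty = fun (p : Pt) (x : ↥(QP F g)) => TTY_t C f g p (x : Ideal (𝓞 F)) := ⟨_, rfl⟩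
  have hmem : ∀ p ∈ S, ty p ∈ Fintype.piFinset (fun x : ↥(QP F g) =>
      Finset.range 5 ×ˢ Finset.range (14 * vv (x : Ideal (𝓞 F)) (g : 𝓞 F) + 1)) := by
    intro p hp
    rw [Fintype.mem_piFinset]
    intro x
    have h := hlo p hp x x.2
    rw [hty, Finset.mem_product, Finset.mem_range, Finset.mem_range]
    show (AV C f x p % 5).toNat < 5 ∧ (min (AV C f x p) (10 * (vv (x : Ideal (𝓞 F)) (g : 𝓞 F) : ℤ)) +
      4 * (vv (x : Ideal (𝓞 F)) (g : 𝓞 F) : ℤ)).toNat < 14 * vv (x : Ideal (𝓞 F)) (g : 𝓞 F) + 1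
    constructor <;> omega
  have hfib : ∀ b ∈ Fintype.piFinset (fun x : ↥(QP F g) =>
      Finset.range 5 ×ˢ Finset.range (14 * vv (x : Ideal (𝓞 F)) (g : 𝓞 F) + 1)),
      ((S.filter fun p => ty p = b).card : ℝ) ≤ B := by
    intro b _
    refine hT _ (Finset.filter_subset _ _) fun p hp q hq => ?_
    rw [Finset.mem_filter] at hp hq
    have e1 : ty p = ty q := hp.2.trans hq.2.symm
    intro P hP hgP
    have hPQ : P ∈ QP F g := (TTY_mem F g hg P).2 ⟨hP, hgP⟩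
    have e2 := congrFun e1 ⟨P, hPQ⟩
    rw [hty] at e2
    have e3 : (AV C f P p % 5).toNat = (AV C f P q % 5).toNat := congrArg Prod.fst e2
    have e4 : (min (AV C f P p) (10 * (vv P (g : 𝓞 F) : ℤ)) + 4 * (vv P (g : 𝓞 F) : ℤ)).toNat =
      (min (AV C f P q) (10 * (vv P (g : 𝓞 F) : ℤ)) + 4 * (vv P (g : 𝓞 F) : ℤ)).toNat :=
      congrArg Prod.snd e2
    have h5 := hlo p hp.1 P hPQ
    have h6 := hlo q hq.1 P hPQ
    constructor <;> omega
  have hcard := Finset.card_eq_sum_card_fiberwise hmem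
  rw [hcard, Nat.cast_sum]
  refine (Finset.sum_le_sum hfib).trans ?_
  rw [Finset.sum_const, nsmul_eq_mul]
  refine mul_le_mul_of_nonneg_right (le_of_eq ?_) hB
  rw [Fintype.card_piFinset]
  congr 1
  rw [← Finset.prod_coe_sort (QP F g) (fun P => 5 * (14 * vv P (g : 𝓞 F) + 1))]
  refine Finset.prod_congr rfl fun x _ => ?_
  rw [Finset.card_product, Finset.card_range, Finset.card_range]

end Pool.Agent.RF
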